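import Mathlib

set_option autoImplicit false

namespace Pool.Agent.MP_1609a8_nt

/-- Singer sets: `D` is the set of exponents `i` with `θ ^ i` in a fixed plane `ker φ` of the cubic
extension `L` of a finite field `K` with `q` elements, `θ` a generator of the multiplicative group
of `L`; the modulus is `q ^ 2 + q + 1`. -/
def IsSinger (m : ℕ) (D : Set ℕ) : Prop :=
  ∃ (K L : Type) (_ : Field K) (_ : Fintype K) (_ : Field L) (_ : Algebra K L)
    (θ : L) (φ : L →ₗ[K] K),
    Module.finrank K L = 3 ∧ IsPrimitiveRoot θ (Fintype.card K ^ 3 - 1) ∧ φ ≠ 0 ∧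
    m = Fintype.card K ^ 2 + Fintype.card K + 1 ∧ D = {i : ℕ | φ (θ ^ i) = 0}

/-- Bose–Chowla sets: `D` is the set of exponents `i` with `θ ^ i` on a fixed affine line (missing
the origin) of the quadratic extension `L` of `K`; the modulus is `q ^ 2 - 1`. -/
def IsBose (m : ℕ) (D : Set ℕ) : Prop :=
  ∃ (K L : Type) (_ : Field K) (_ : Fintype K) (_ : Field L) (_ : Algebra K L)
    (θ : L) (φ : L →ₗ[K] K),
    Module.finrank K L = 2 ∧ IsPrimitiveRoot θ (Fintype.card K ^ 2 - 1) ∧ φ ≠ 0 ∧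
    m = Fintype.card K ^ 2 - 1 ∧ D = {i : ℕ | φ (θ ^ i) = 1}

/-- Ruzsa sets: `D` is the set of `i` with `α g ^ i = i + β` modulo the prime `p`, `g` a primitive
root; the modulus is `p (p - 1)`. -/
def IsRuzsa (m : ℕ) (D : Set ℕ) : Prop :=
  ∃ (p : ℕ) (g α β : ZMod p), p.Prime ∧ IsPrimitiveRoot g (p - 1) ∧ α ≠ 0 ∧
    m = p * (p - 1) ∧ D = {i : ℕ | α * g ^ i = (i : ZMod p) + β}

/-- The classical near-extremal Sidon sets modulo `m`, as `m`-periodic sets of naturals. -/
def IsClassical (m : ℕ) (D : Set ℕ) : Prop := IsSinger m D ∨ IsBose m D ∨ IsRuzsa m D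

end Pool.Agent.MP_1609a8_nt
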